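import Mathlib

/-!
# Euler calculus on the products of three spaces

Constructible functions on the products of three complex varieties, and integration with respect
to the Euler characteristic.
-/

set_option autoImplicit false

namespace Pool.Agent.Euler2

universe u

/-- names for the products of three spaces -/
inductive Space
  | v
  | w
  | s
  | prod (a b : Space)

/-- the points of a product of the three spaces `V`, `W`, `S` -/
@[reducible]
def Pt (V W S : Type u) : Space → Type u
  | .v => V
  | .w => W
  | .s => S
  | .prod a b => Pt V W S a × Pt V W S b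

/-- maps between products of `V`, `W`, `S` all of whose components are coordinates -/
inductive Coordinate (V W S : Type u) : (a b : Space) → (Pt V W S a → Pt V W S b) → Prop
  | id (a : Space) : Coordinate V W S a a (fun x => x)
  | fst (a b : Space) : Coordinate V W S (.prod a b) a (fun p => p.1)
  | snd (a b : Space) : Coordinate V W S (.prod a b) b (fun p => p.2)
  | comp {a b c : Space} {r : Pt V W S a → Pt V W S b} {t : Pt V W S b → Pt V W S c}
      (hr : Coordinate V W S a b r) (ht : Coordinate V W S b c t) :
      Coordinate V W S a c (fun x => t (r x))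
  | pair {a b c : Space} {r : Pt V W S a → Pt V W S b} {t : Pt V W S a → Pt V W S c}
      (hr : Coordinate V W S a b r) (ht : Coordinate V W S a c t) :
      Coordinate V W S a (.prod b c) (fun x => (r x, t x))

open Classical in
/-- The calculus of constructible functions on the products of three (constructible subsets of)
complex algebraic varieties `V`, `W`, `S`. `Con a` is the set of the constructible functions with
values in `ℚ`, and `integral a` is the integral with respect to the Euler characteristic. -/
structure EulerCalculus (V W S : Type u) where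
  /-- the constructible functions -/
  Con : (a : Space) → Set (Pt V W S a → ℚ)
  const_mem : ∀ a (c : ℚ), (fun _ => c) ∈ Con a
  add_mem : ∀ a f g, f ∈ Con a → g ∈ Con a → (fun x => f x + g x) ∈ Con a
  mul_mem : ∀ a f g, f ∈ Con a → g ∈ Con a → (fun x => f x * g x) ∈ Con a
  /-- a constructible function has finitely many values, with constructible level sets -/
  map_mem : ∀ a f (h : ℚ → ℚ), f ∈ Con a → (fun x => h (f x)) ∈ Con a
  coordinate_mem : ∀ a b r f, Coordinate V W S a b r → f ∈ Con b → (fun x => f (r x)) ∈ Con a
  diagonal_mem : ∀ a, (fun p : Pt V W S a × Pt V W S a => if p.1 = p.2 then (1 : ℚ) else 0) ∈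
    Con (.prod a a)
  slice_mem : ∀ a b f, f ∈ Con (.prod a b) → ∀ x : Pt V W S a, (fun y => f (x, y)) ∈ Con b
  /-- the Euler integral -/
  integral : (a : Space) → (Pt V W S a → ℚ) → ℚ
  integral_mem : ∀ a b f, f ∈ Con (.prod a b) →
    (fun x => integral b (fun y => f (x, y))) ∈ Con a
  integral_add : ∀ a f g, f ∈ Con a → g ∈ Con a →
    integral a (fun x => f x + g x) = integral a f + integral a g
  integral_mul : ∀ a f (c : ℚ), f ∈ Con a → integral a (fun x => c * f x) = c * integral a f
  integral_point : ∀ a (z : Pt V W S a), integral a (fun x => if x = z then 1 else 0) = 1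
  fubini : ∀ a b f, f ∈ Con (.prod a b) →
    integral (.prod a b) f = integral a (fun x => integral b (fun y => f (x, y)))
  fubini' : ∀ a b f, f ∈ Con (.prod a b) →
    integral (.prod a b) f = integral b (fun y => integral a (fun x => f (x, y)))
  /-- a constructible subset of a product contains a constructible subset which is finite over the
  first factor and has the same projection -/
  multisection : ∀ a b f, f ∈ Con (.prod a b) → ∃ m ∈ Con (.prod a b),
    (∀ p, m p = 0 ∨ m p = 1) ∧ (∀ p, m p ≠ 0 → f p ≠ 0) ∧
    ∀ x : Pt V W S a, {y | m (x, y) ≠ 0}.Finite ∧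
      ((∃ y, f (x, y) ≠ 0) → ∃ y, m (x, y) ≠ 0)

namespace EulerCalculus

variable {V W S : Type u} (E : EulerCalculus V W S)

open Classical in
/-- `r` has a constructible graph -/
def Mor (a b : Space) (r : Pt V W S a → Pt V W S b) : Prop :=
  (fun p : Pt V W S a × Pt V W S b => if r p.1 = p.2 then (1 : ℚ) else 0) ∈ E.Con (.prod a b)

theorem integral_zero (a : Space) : E.integral a (fun _ => 0) = 0 := by
  have := E.integral_mul a (fun _ => (0 : ℚ)) 0 (E.const_mem a 0)
  simpa using this

open Classical in
theorem point_mem (a : Space) (z : Pt V W S a) :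
    (fun x => if x = z then (1 : ℚ) else 0) ∈ E.Con a := by
  have := E.slice_mem a a _ (E.diagonal_mem a) z
  simpa only [eq_comm (a := z)] using this

open Classical in
theorem integral_single (a : Space) (z : Pt V W S a) (c : ℚ) :
    E.integral a (fun x => if x = z then c else 0) = c := by
  have h := E.integral_mul a _ c (E.point_mem a z)
  rw [E.integral_point, mul_one] at h
  refine Eq.trans ?_ h
  congr 1
  funext x
  split_ifs <;> simp

open Classical in
/-- a function concentrated in one point -/
theorem integral_of_single (a : Space) (z : Pt V W S a) (f : Pt V W S a → ℚ)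
    (hf : ∀ x, x ≠ z → f x = 0) : E.integral a f = f z := by
  rw [← E.integral_single a z (f z)]
  congr 1
  funext x
  by_cases h : x = z
  · simp [h]
  · simp [h, hf x h]

theorem swap {a b : Space} {f : Pt V W S a × Pt V W S b → ℚ} (hf : f ∈ E.Con (.prod a b)) :
    E.integral a (fun x => E.integral b (fun y => f (x, y))) =
      E.integral b (fun y => E.integral a (fun x => f (x, y))) := by
  rw [← E.fubini a b f hf, E.fubini' a b f hf]

theorem mor_coordinate {a b : Space} {r : Pt V W S a → Pt V W S b}
    (hr : Coordinate V W S a b r) : E.Mor a b r := by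
  have h : Coordinate V W S (.prod a b) (.prod b b)
      (fun p : Pt V W S a × Pt V W S b => (r p.1, p.2)) :=
    .pair (.comp (.fst a b) hr) (.snd a b)
  exact E.coordinate_mem _ _ _ _ h (E.diagonal_mem b)

open Classical in
/-- pullback of constructible functions -/
theorem pull_mem {a b : Space} {r : Pt V W S a → Pt V W S b} (hr : E.Mor a b r)
    {f : Pt V W S b → ℚ} (hf : f ∈ E.Con b) : (fun x => f (r x)) ∈ E.Con a := by
  have h1 : (fun p : Pt V W S a × Pt V W S b => f p.2 * (if r p.1 = p.2 then (1 : ℚ) else 0)) ∈
      E.Con (.prod a b) :=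
    E.mul_mem _ _ _ (E.coordinate_mem _ _ _ _ (.snd a b) hf) hr
  have h2 := E.integral_mem a b _ h1
  convert h2 using 2 with x
  rw [E.integral_of_single b (r x)]
  · simp
  · intro y hy
    simp [Ne.symm hy]

theorem mor_comp_coordinate {a b c : Space} {s : Pt V W S a → Pt V W S b}
    (hs : Coordinate V W S a b s) {r : Pt V W S b → Pt V W S c} (hr : E.Mor b c r) :
    E.Mor a c (fun x => r (s x)) := by
  have h : Coordinate V W S (.prod a c) (.prod b c)
      (fun p : Pt V W S a × Pt V W S c => (s p.1, p.2)) :=
    .pair (.comp (.fst a c) hs) (.snd a c)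
  exact E.coordinate_mem _ _ _ _ h hr

open Classical in
theorem mor_pair {a b c : Space} {r : Pt V W S a → Pt V W S b} {t : Pt V W S a → Pt V W S c}
    (hr : E.Mor a b r) (ht : E.Mor a c t) : E.Mor a (.prod b c) (fun x => (r x, t x)) := by
  have h1 : Coordinate V W S (.prod a (.prod b c)) (.prod a b)
      (fun p : Pt V W S a × (Pt V W S b × Pt V W S c) => (p.1, p.2.1)) :=
    .pair (.fst a (.prod b c)) (.comp (.snd a (.prod b c)) (.fst b c))
  have h2 : Coordinate V W S (.prod a (.prod b c)) (.prod a c)
      (fun p : Pt V W S a × (Pt V W S b × Pt V W S c) => (p.1, p.2.2)) :=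
    .pair (.fst a (.prod b c)) (.comp (.snd a (.prod b c)) (.snd b c))
  have h3 := E.mul_mem _ _ _ (E.coordinate_mem _ _ _ _ h1 hr) (E.coordinate_mem _ _ _ _ h2 ht)
  unfold Mor
  convert h3 using 2 with p
  simp only [Prod.ext_iff]
  split_ifs <;> simp_all

theorem mor_comp {a b c : Space} {r : Pt V W S a → Pt V W S b} (hr : E.Mor a b r)
    {t : Pt V W S b → Pt V W S c} (ht : E.Mor b c t) : E.Mor a c (fun x => t (r x)) := by
  have h1 : E.Mor (.prod a c) (.prod b c)
      (fun p : Pt V W S a × Pt V W S c => (r p.1, p.2)) :=
    E.mor_pair (E.mor_comp_coordinate (.fst a c) hr) (E.mor_coordinate (.snd a c))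
  exact E.pull_mem h1 ht

open Classical in
/-- push-forward of constructible functions -/
noncomputable def push (a b : Space) (r : Pt V W S a → Pt V W S b) (f : Pt V W S a → ℚ) :
    Pt V W S b → ℚ :=
  fun z => E.integral a (fun x => f x * (if r x = z then 1 else 0))

open Classical in
theorem push_aux {a b : Space} {r : Pt V W S a → Pt V W S b} (hr : E.Mor a b r)
    {f : Pt V W S a → ℚ} (hf : f ∈ E.Con a) :
    (fun p : Pt V W S b × Pt V W S a => f p.2 * (if r p.2 = p.1 then (1 : ℚ) else 0)) ∈
      E.Con (.prod b a) := by
  have h : Coordinate V W S (.prod b a) (.prod a b)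
      (fun p : Pt V W S b × Pt V W S a => (p.2, p.1)) :=
    .pair (.snd b a) (.fst b a)
  exact E.mul_mem _ _ _ (E.coordinate_mem _ _ _ _ (.snd b a) hf)
    (E.coordinate_mem _ _ _ _ h hr)

theorem push_mem {a b : Space} {r : Pt V W S a → Pt V W S b} (hr : E.Mor a b r)
    {f : Pt V W S a → ℚ} (hf : f ∈ E.Con a) : E.push a b r f ∈ E.Con b :=
  E.integral_mem b a _ (E.push_aux hr hf)

open Classical in
theorem push_push {a b c : Space} {r : Pt V W S a → Pt V W S b} (hr : E.Mor a b r)
    {t : Pt V W S b → Pt V W S c} (ht : E.Mor b c t) {f : Pt V W S a → ℚ} (hf : f ∈ E.Con a) :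
    E.push b c t (E.push a b r f) = E.push a c (fun x => t (r x)) f := by
  funext w
  unfold push
  have h0 : (fun z : Pt V W S b => if t z = w then (1 : ℚ) else 0) ∈ E.Con b := by
    have := E.pull_mem ht (E.point_mem c w)
    exact this
  have h1 : (fun p : Pt V W S b × Pt V W S a => (if t p.1 = w then (1 : ℚ) else 0) *
      (f p.2 * (if r p.2 = p.1 then (1 : ℚ) else 0))) ∈ E.Con (.prod b a) :=
    E.mul_mem _ _ _ (E.coordinate_mem _ _ _ _ (.fst b a) h0) (E.push_aux hr hf)
  have h2 : ∀ z : Pt V W S b, E.integral a (fun x => f x * (if r x = z then 1 else 0)) *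
      (if t z = w then 1 else 0) = E.integral a (fun x => (if t z = w then (1 : ℚ) else 0) *
      (f x * (if r x = z then (1 : ℚ) else 0))) := by
    intro z
    rw [E.integral_mul a _ _ (E.slice_mem b a _ (E.push_aux hr hf) z), mul_comm]
  simp only [h2]
  rw [E.swap h1]
  congr 1
  funext x
  rw [E.integral_of_single b (r x)]
  · simp [mul_comm]
  · intro z hz
    simp [Ne.symm hz]

/-- push-forward along the first projection -/
theorem push_fst {a b : Space} {f : Pt V W S a × Pt V W S b → ℚ} (hf : f ∈ E.Con (.prod a b)) :
    E.push (.prod a b) a (fun p => p.1) f = fun x => E.integral b (fun y => f (x, y)) := by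
  classical
  funext z
  unfold push
  have h1 : (fun p : Pt V W S a × Pt V W S b => f p * (if p.1 = z then (1 : ℚ) else 0)) ∈
      E.Con (.prod a b) :=
    E.mul_mem _ _ _ hf (E.coordinate_mem _ _ _ _ (.fst a b) (E.point_mem a z))
  rw [E.fubini a b _ h1, E.integral_of_single a z]
  · simp
  · intro x hx
    simp [hx, E.integral_zero]

/-- push-forward along the second projection -/
theorem push_snd {a b : Space} {f : Pt V W S a × Pt V W S b → ℚ} (hf : f ∈ E.Con (.prod a b)) :
    E.push (.prod a b) b (fun p => p.2) f = fun y => E.integral a (fun x => f (x, y)) := by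
  classical
  funext z
  unfold push
  have h1 : (fun p : Pt V W S a × Pt V W S b => f p * (if p.2 = z then (1 : ℚ) else 0)) ∈
      E.Con (.prod a b) :=
    E.mul_mem _ _ _ hf (E.coordinate_mem _ _ _ _ (.snd a b) (E.point_mem b z))
  rw [E.fubini' a b _ h1, E.integral_of_single b z]
  · simp
  · intro x hx
    simp [hx, E.integral_zero]

end EulerCalculus

end Pool.Agent.Euler2
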