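import Pool.Agent.Helper2.EC.Basic

/-!
# The support of the kernel of a derived equivalence
-/

set_option autoImplicit false

namespace Pool.Agent.Euler2

universe u

/-- `Chain Z k x x'`: there are `x = x_0, x_1, ..., x_k = x'` in `V` and `y_1, ..., y_k` in `W`
such that `(x_{i-1}, y_i)` and `(x_i, y_i)` lie in `Z` -/
inductive Chain {V W : Type u} (Z : Set (V × W)) : ℕ → V → V → Prop
  | refl (x : V) : Chain Z 0 x x
  | step {k : ℕ} {x x₁ x' : V} {y : W} (h : (x, y) ∈ Z) (h₁ : (x₁, y) ∈ Z)
      (hc : Chain Z k x₁ x') : Chain Z (k + 1) x x'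

theorem chain_zero {V W : Type u} {Z : Set (V × W)} {x x' : V} : Chain Z 0 x x' ↔ x = x' := by
  constructor
  · intro h
    cases h
    rfl
  · rintro rfl
    exact .refl _

theorem chain_succ {V W : Type u} {Z : Set (V × W)} {k : ℕ} {x x' : V} :
    Chain Z (k + 1) x x' ↔ ∃ y x₁, (x, y) ∈ Z ∧ (x₁, y) ∈ Z ∧ Chain Z k x₁ x' := by
  constructor
  · intro h
    cases h with
    | step h h₁ hc => exact ⟨_, _, h, h₁, hc⟩
  · rintro ⟨y, x₁, h, h₁, hc⟩
    exact .step h h₁ hc

open Classical in
/-- What a derived equivalence of smooth projective varieties `X`, `Y` of dimension `n` with kernel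
`P` gives. `V`, `W` are the sets of points of `X`, `Y`, and `Z` is a closed subset of `X × Y` which
contains the support of `P` and on which the pullbacks of the canonical classes are numerically
equal, for instance the support of `P`. The closed subsets `V0`, `W0` correspond under `Z`, and the
canonical classes are numerically trivial on them. Outside `V0` and `W0` the classes of the
equivalence relation generated by `Z` are the fibres of the maps `f` and `g` to a constructible set
`S`. -/
structure KernelSupport (V W S : Type u) extends EulerCalculus V W S where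
  /-- the support of the kernel -/
  Z : Set (V × W)
  Z_mem : (fun p : V × W => if p ∈ Z then (1 : ℚ) else 0) ∈ Con (.prod .v .w)
  V0 : Set V
  V0_mem : (fun x : V => if x ∈ V0 then (1 : ℚ) else 0) ∈ Con .v
  W0 : Set W
  W0_mem : (fun y : W => if y ∈ W0 then (1 : ℚ) else 0) ∈ Con .w
  /-- the maps whose fibres outside `V0` and `W0` are the classes -/
  f : V → S
  f_mem : (fun p : V × S => if f p.1 = p.2 then (1 : ℚ) else 0) ∈ Con (.prod .v .s)
  g : W → S
  g_mem : (fun p : W × S => if g p.1 = p.2 then (1 : ℚ) else 0) ∈ Con (.prod .w .s)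
  /-- a bound for the lengths of the chains -/
  k : ℕ
  chain : ∀ x x', x ∉ V0 → x' ∉ V0 → f x = f x' → Chain Z k x x'
  meets : ∀ y, y ∉ W0 → ∃ x, x ∉ V0 ∧ (x, y) ∈ Z ∧ f x = g y
  /-- corresponding closed subsets have the same Euler characteristic -/
  euler : ∀ s, integral .v (fun x => if x ∉ V0 ∧ f x = s then 1 else 0) =
    integral .w (fun y => if y ∉ W0 ∧ g y = s then 1 else 0)
  /-- `degV a` is the degree of the canonical class on the part in degree two of the
  Chern-Schwartz-MacPherson class of `a` -/
  degV : (V → ℚ) → ℝ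
  degW : (W → ℚ) → ℝ
  degV_add : ∀ a b, a ∈ Con .v → b ∈ Con .v → degV (fun x => a x + b x) = degV a + degV b
  degW_add : ∀ a b, a ∈ Con .w → b ∈ Con .w → degW (fun x => a x + b x) = degW a + degW b
  degV_eq_zero : ∀ a ∈ Con .v, (∀ x, x ∉ V0 → a x = 0) → degV a = 0
  degW_eq_zero : ∀ a ∈ Con .w, (∀ y, y ∉ W0 → a y = 0) → degW a = 0
  /-- MacPherson's theorem for the two projections of `Z`, on which the pullbacks of the canonical
  classes agree numerically -/
  transfer : ∀ c ∈ Con (.prod .v .w), (∀ p : V × W, p ∉ Z → c p = 0) →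
    degV (fun x => integral .w (fun y => c (x, y))) =
      degW (fun y => integral .v (fun x => c (x, y)))

end Pool.Agent.Euler2
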