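import Pool.Agent.Helper2.EC.Defs

/-!
# The degree of the canonical class on the Chern-Schwartz-MacPherson class
-/

set_option autoImplicit false

namespace Pool.Agent.Euler2

universe u

namespace EulerCalculus

variable {V W S : Type u} (E : EulerCalculus V W S)

open Classical in
theorem sum_point (a : Space) (s : Finset (Pt V W S a)) :
    (fun x => ∑ z ∈ s, if x = z then (1 : ℚ) else 0) ∈ E.Con a ∧
      E.integral a (fun x => ∑ z ∈ s, if x = z then (1 : ℚ) else 0) = s.card := by
  induction s using Finset.induction_on with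
  | empty =>
    simp only [Finset.sum_empty, Finset.card_empty, Nat.cast_zero]
    exact ⟨E.const_mem a 0, E.integral_zero a⟩
  | insert z s hz ih =>
    have h : (fun x => ∑ z' ∈ insert z s, if x = z' then (1 : ℚ) else 0) =
        fun x => (if x = z then (1 : ℚ) else 0) + ∑ z' ∈ s, if x = z' then (1 : ℚ) else 0 := by
      funext x
      rw [Finset.sum_insert hz]
    rw [h]
    refine ⟨E.add_mem _ _ _ (E.point_mem a z) ih.1, ?_⟩
    rw [E.integral_add _ _ _ (E.point_mem a z) ih.1, ih.2, E.integral_point,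
      Finset.card_insert_of_notMem hz]
    push_cast
    ring

open Classical in
/-- the integral of the indicator function of a finite set -/
theorem integral_finite (a : Space) (m : Pt V W S a → ℚ) (hm : ∀ x, m x = 0 ∨ m x = 1)
    (hfin : {x | m x ≠ 0}.Finite) : E.integral a m = hfin.toFinset.card := by
  rw [← (E.sum_point a hfin.toFinset).2]
  congr 1
  funext x
  rcases hm x with h | h
  · rw [h, Finset.sum_eq_zero]
    intro z hz
    rw [Set.Finite.mem_toFinset] at hz
    rw [if_neg]
    rintro rfl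
    exact hz h
  · rw [Finset.sum_ite_eq, if_pos (by simp [h]), h]

/-- a constructible weight along the fibres of the first projection -/
theorem exists_weight {a b : Space} {f : Pt V W S a × Pt V W S b → ℚ}
    (hf : f ∈ E.Con (.prod a b)) :
    ∃ w ∈ E.Con (.prod a b), (∀ p, w p ≠ 0 → f p ≠ 0) ∧
      ∀ x, (∃ y, f (x, y) ≠ 0) → E.integral b (fun y => w (x, y)) = 1 := by
  obtain ⟨m, hm, h01, hsupp, hfin⟩ := E.multisection a b f hf
  have hN := E.integral_mem a b m hm
  have hNi := E.map_mem a _ (fun q => q⁻¹) hN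
  refine ⟨fun p => (E.integral b (fun y => m (p.1, y)))⁻¹ * m p,
    E.mul_mem _ _ _ (E.coordinate_mem _ _ _ _ (.fst a b) hNi) hm, fun p hp => ?_, ?_⟩
  · exact hsupp p (right_ne_zero_of_mul hp)
  · intro x hx
    obtain ⟨hfx, hex⟩ := hfin x
    obtain ⟨y, hy⟩ := hex hx
    show E.integral b (fun y => (E.integral b (fun y => m (x, y)))⁻¹ * m (x, y)) = 1
    rw [E.integral_mul b _ _ (E.slice_mem a b m hm x)]
    refine inv_mul_cancel₀ ?_
    rw [E.integral_finite b _ (fun y => h01 (x, y)) hfx]
    have : y ∈ hfx.toFinset := by simpa using hy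
    have := Finset.card_pos.2 ⟨y, this⟩
    positivity

open Classical in
/-- the projection of a constructible set is constructible -/
theorem exists_mem {a b : Space} {f : Pt V W S a × Pt V W S b → ℚ}
    (hf : f ∈ E.Con (.prod a b)) :
    (fun x => if ∃ y, f (x, y) ≠ 0 then (1 : ℚ) else 0) ∈ E.Con a := by
  obtain ⟨w, hw, hsupp, hint⟩ := E.exists_weight hf
  convert E.integral_mem a b w hw using 2 with x
  split_ifs with h
  · exact (hint x h).symm
  · have h0 : (fun y => w (x, y)) = fun _ => 0 := by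
      funext y
      by_contra hne
      exact h ⟨y, hsupp _ hne⟩
    rw [h0, E.integral_zero]

open Classical in
theorem not_mem {a : Space} {T : Set (Pt V W S a)}
    (hT : (fun x => if x ∈ T then (1 : ℚ) else 0) ∈ E.Con a) :
    (fun x => if x ∉ T then (1 : ℚ) else 0) ∈ E.Con a := by
  have := E.map_mem a _ (fun q => 1 - q) hT
  convert this using 2 with x
  split_ifs <;> simp_all

end EulerCalculus

namespace KernelSupport

variable {V W S : Type u} (K : KernelSupport V W S)

open Classical in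
theorem chain_mem (k : ℕ) : (fun p : V × V => if Chain K.Z k p.1 p.2 then (1 : ℚ) else 0) ∈
    K.Con (.prod .v .v) := by
  induction k with
  | zero =>
    convert K.diagonal_mem .v using 2 with p
    simp only [chain_zero]
  | succ k ih =>
    have c1 : Coordinate V W S (.prod (.prod .v .v) (.prod .w .v)) (.prod .v .w)
        (fun p : (V × V) × (W × V) => (p.1.1, p.2.1)) :=
      .pair (.comp (.fst _ _) (.fst .v .v)) (.comp (.snd _ _) (.fst .w .v))
    have c2 : Coordinate V W S (.prod (.prod .v .v) (.prod .w .v)) (.prod .v .w)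
        (fun p : (V × V) × (W × V) => (p.2.2, p.2.1)) :=
      .pair (.comp (.snd _ _) (.snd .w .v)) (.comp (.snd _ _) (.fst .w .v))
    have c3 : Coordinate V W S (.prod (.prod .v .v) (.prod .w .v)) (.prod .v .v)
        (fun p : (V × V) × (W × V) => (p.2.2, p.1.2)) :=
      .pair (.comp (.snd _ _) (.snd .w .v)) (.comp (.fst _ _) (.snd .v .v))
    have h := K.mul_mem _ _ _ (K.mul_mem _ _ _ (K.coordinate_mem _ _ _ _ c1 K.Z_mem)
      (K.coordinate_mem _ _ _ _ c2 K.Z_mem)) (K.coordinate_mem _ _ _ _ c3 ih)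
    convert K.exists_mem h using 2 with p
    have : Chain K.Z (k + 1) p.1 p.2 ↔ ∃ q : W × V, (((if (p.1, q.1) ∈ K.Z then (1 : ℚ) else 0) *
        (if (q.2, q.1) ∈ K.Z then (1 : ℚ) else 0)) *
        (if Chain K.Z k q.2 p.2 then (1 : ℚ) else 0)) ≠ 0 := by
      constructor
      · intro h
        obtain ⟨y, x₁, h, h₁, hc⟩ := chain_succ.1 h
        refine ⟨(y, x₁), ?_⟩
        simp [h, h₁, hc]
      · rintro ⟨q, hq⟩
        simp only [ne_eq, mul_eq_zero, ite_eq_right_iff, one_ne_zero, imp_false, not_or,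
          not_not] at hq
        exact .step hq.1.1 hq.1.2 hq.2
    simp only [this]

/-- one link -/
theorem link {a : Space} {F : Pt V W S a → ℚ} (hF : F ∈ K.Con a) {x : Pt V W S a → V}
    {y : Pt V W S a → W} (hx : K.Mor a .v x) (hy : K.Mor a .w y)
    (h : ∀ t, F t ≠ 0 → (x t, y t) ∈ K.Z) :
    K.degV (K.push a .v x F) = K.degW (K.push a .w y F) := by
  classical
  have hxy : K.Mor a (.prod .v .w) (fun t => (x t, y t)) := K.mor_pair hx hy
  have hc := K.push_mem hxy hF
  have h1 := K.transfer _ hc (fun p hp => by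
    unfold EulerCalculus.push
    convert K.integral_zero a using 2
    funext t
    by_cases ht : F t = 0
    · rw [ht, zero_mul]
    · rw [if_neg, mul_zero]
      intro he
      exact hp (he ▸ h t ht))
  have h2 := K.push_fst hc
  have h3 := K.push_snd hc
  rw [K.push_push hxy (K.mor_coordinate (.fst .v .w)) hF] at h2
  rw [K.push_push hxy (K.mor_coordinate (.snd .v .w)) hF] at h3
  rw [← h2, ← h3] at h1
  exact h1

open Classical in
/-- a chain -/
theorem chain_transport (k : ℕ) : ∀ {a : Space} {F : Pt V W S a → ℚ}, F ∈ K.Con a →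
    ∀ {x x' : Pt V W S a → V}, K.Mor a .v x → K.Mor a .v x' →
    (∀ t, F t ≠ 0 → Chain K.Z k (x t) (x' t)) →
    K.degV (K.push a .v x F) = K.degV (K.push a .v x' F) := by
  induction k with
  | zero =>
    intro a F _ x x' _ _ h
    congr 1
    funext z
    unfold EulerCalculus.push
    congr 1
    funext t
    by_cases ht : F t = 0
    · rw [ht, zero_mul, zero_mul]
    · rw [chain_zero.1 (h t ht)]
  | succ k ih =>
    intro a F hF x x' hx hx' h
    -- the links
    have c1 : K.Mor (.prod a (.prod .w .v)) (.prod .v .w)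
        (fun p : Pt V W S a × (W × V) => (x p.1, p.2.1)) :=
      K.mor_pair (K.mor_comp_coordinate (.fst _ _) hx)
        (K.mor_coordinate (.comp (.snd _ _) (.fst .w .v)))
    have c2 : K.Mor (.prod a (.prod .w .v)) (.prod .v .w)
        (fun p : Pt V W S a × (W × V) => (p.2.2, p.2.1)) :=
      K.mor_coordinate (.pair (.comp (.snd _ _) (.snd .w .v)) (.comp (.snd _ _) (.fst .w .v)))
    have c3 : K.Mor (.prod a (.prod .w .v)) (.prod .v .v)
        (fun p : Pt V W S a × (W × V) => (p.2.2, x' p.1)) :=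
      K.mor_pair (K.mor_coordinate (.comp (.snd _ _) (.snd .w .v)))
        (K.mor_comp_coordinate (.fst _ _) hx')
    have c4 : (fun p : Pt V W S a × (W × V) => F p.1) ∈ K.Con (.prod a (.prod .w .v)) :=
      K.coordinate_mem _ _ _ _ (.fst _ _) hF
    have hf := K.mul_mem _ _ _ (K.mul_mem _ _ _ (K.mul_mem _ _ _ (K.pull_mem c1 K.Z_mem)
      (K.pull_mem c2 K.Z_mem)) (K.pull_mem c3 (K.chain_mem k))) c4
    obtain ⟨w, hw, hsupp, hint⟩ := K.exists_weight hf
    set G : Pt V W S a × (W × V) → ℚ := fun p => F p.1 * w p with hG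
    have hGm : G ∈ K.Con (.prod a (.prod .w .v)) := K.mul_mem _ _ _ c4 hw
    have hG0 : ∀ p, G p ≠ 0 → (x p.1, p.2.1) ∈ K.Z ∧ (p.2.2, p.2.1) ∈ K.Z ∧
        Chain K.Z k p.2.2 (x' p.1) := by
      intro p hp
      have := hsupp p (right_ne_zero_of_mul hp)
      simp only [ne_eq, mul_eq_zero, ite_eq_right_iff, one_ne_zero, imp_false, not_or,
        not_not] at this
      exact ⟨this.1.1.1, this.1.1.2, this.1.2⟩
    have hfst : K.push (.prod a (.prod .w .v)) a (fun p => p.1) G = F := by
      rw [K.push_fst hGm]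
      funext t
      have : (fun q : W × V => G (t, q)) = fun q => F t * w (t, q) := rfl
      rw [this, K.integral_mul _ _ _ (K.slice_mem _ _ w hw t)]
      by_cases ht : F t = 0
      · rw [ht, zero_mul]
      · rw [hint t, mul_one]
        obtain ⟨y, x₁, h, h₁, hc⟩ := chain_succ.1 (h t ht)
        refine ⟨(y, x₁), ?_⟩
        simp [h, h₁, hc, ht]
    have e1 := K.push_push (K.mor_coordinate (.fst a (.prod .w .v))) hx hGm
    have e2 := K.push_push (K.mor_coordinate (.fst a (.prod .w .v))) hx' hGm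
    have e3 := K.link hGm (K.mor_comp_coordinate (.fst _ _) hx)
      (K.mor_coordinate (.comp (.snd a (.prod .w .v)) (.fst .w .v)))
      (fun p hp => (hG0 p hp).1)
    have e4 := K.link hGm (K.mor_coordinate (.comp (.snd a (.prod .w .v)) (.snd .w .v)))
      (K.mor_coordinate (.comp (.snd a (.prod .w .v)) (.fst .w .v)))
      (fun p hp => (hG0 p hp).2.1)
    have e5 := ih hGm (K.mor_coordinate (.comp (.snd a (.prod .w .v)) (.snd .w .v)))
      (K.mor_comp_coordinate (.fst _ _) hx') (fun p hp => (hG0 p hp).2.2)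
    rw [hfst] at e1 e2
    rw [e1, e2, e3, ← e4, e5]

open Classical in
/-- a chain which starts in `W` -/
theorem chain_transport' (k : ℕ) {a : Space} {F : Pt V W S a → ℚ} (hF : F ∈ K.Con a)
    {y : Pt V W S a → W} {x' : Pt V W S a → V} (hy : K.Mor a .w y) (hx' : K.Mor a .v x')
    (h : ∀ t, F t ≠ 0 → ∃ x, (x, y t) ∈ K.Z ∧ Chain K.Z k x (x' t)) :
    K.degW (K.push a .w y F) = K.degV (K.push a .v x' F) := by
  have c1 : K.Mor (.prod a .v) (.prod .v .w)
      (fun p : Pt V W S a × V => (p.2, y p.1)) :=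
    K.mor_pair (K.mor_coordinate (.snd _ _)) (K.mor_comp_coordinate (.fst _ _) hy)
  have c3 : K.Mor (.prod a .v) (.prod .v .v)
      (fun p : Pt V W S a × V => (p.2, x' p.1)) :=
    K.mor_pair (K.mor_coordinate (.snd _ _)) (K.mor_comp_coordinate (.fst _ _) hx')
  have c4 : (fun p : Pt V W S a × V => F p.1) ∈ K.Con (.prod a .v) :=
    K.coordinate_mem _ _ _ _ (.fst _ _) hF
  have hf := K.mul_mem _ _ _ (K.mul_mem _ _ _ (K.pull_mem c1 K.Z_mem)
    (K.pull_mem c3 (K.chain_mem k))) c4
  obtain ⟨w, hw, hsupp, hint⟩ := K.exists_weight hf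
  set G : Pt V W S a × V → ℚ := fun p => F p.1 * w p with hG
  have hGm : G ∈ K.Con (.prod a .v) := K.mul_mem _ _ _ c4 hw
  have hG0 : ∀ p, G p ≠ 0 → (p.2, y p.1) ∈ K.Z ∧ Chain K.Z k p.2 (x' p.1) := by
    intro p hp
    have := hsupp p (right_ne_zero_of_mul hp)
    simp only [ne_eq, mul_eq_zero, ite_eq_right_iff, one_ne_zero, imp_false, not_or,
      not_not] at this
    exact ⟨this.1.1, this.1.2⟩
  have hfst : K.push (.prod a .v) a (fun p => p.1) G = F := by
    rw [K.push_fst hGm]
    funext t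
    have : (fun q : V => G (t, q)) = fun q => F t * w (t, q) := rfl
    rw [this, K.integral_mul _ _ _ (K.slice_mem _ _ w hw t)]
    by_cases ht : F t = 0
    · rw [ht, zero_mul]
    · rw [hint t, mul_one]
      obtain ⟨x₁, h1, h2⟩ := h t ht
      refine ⟨x₁, ?_⟩
      simp [h1, h2, ht]
  have e1 := K.push_push (K.mor_coordinate (.fst a .v)) hy hGm
  have e2 := K.push_push (K.mor_coordinate (.fst a .v)) hx' hGm
  have e3 := K.link hGm (K.mor_coordinate (.snd a .v)) (K.mor_comp_coordinate (.fst _ _) hy)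
    (fun p hp => (hG0 p hp).1)
  have e5 := K.chain_transport k hGm (K.mor_coordinate (.snd a .v))
    (K.mor_comp_coordinate (.fst _ _) hx') (fun p hp => (hG0 p hp).2)
  rw [hfst] at e1 e2
  rw [e1, e2, ← e3, e5]

open Classical in
/-- the degrees of the canonical classes on the Chern-Schwartz-MacPherson classes agree -/
theorem deg_eq : K.degV (fun _ => 1) = K.degW (fun _ => 1) := by
  -- a multisection of `f`
  have hs0 := K.mul_mem _ _ _ (K.coordinate_mem _ _ _ _ (.pair (.snd .s .v) (.fst .s .v)) K.f_mem)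
    (K.coordinate_mem _ _ _ _ (.snd .s .v) (K.not_mem (a := .v) K.V0_mem))
  obtain ⟨w, hw, hsupp, hint⟩ := K.exists_weight hs0
  have hw0 : ∀ s x', w (s, x') ≠ 0 → K.f x' = s ∧ x' ∉ K.V0 := by
    intro s x' hne
    have := hsupp _ hne
    simpa [and_comm] using this
  -- the two families
  have hV := K.not_mem (a := .v) K.V0_mem
  have hW := K.not_mem (a := .w) K.W0_mem
  have m1 : K.Mor (.prod .v .v) (.prod .s .v) (fun p : V × V => (K.f p.1, p.2)) :=
    K.mor_pair (K.mor_comp_coordinate (.fst .v .v) K.f_mem) (K.mor_coordinate (.snd .v .v))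
  have m2 : K.Mor (.prod .w .v) (.prod .s .v) (fun p : W × V => (K.g p.1, p.2)) :=
    K.mor_pair (K.mor_comp_coordinate (.fst .w .v) K.g_mem) (K.mor_coordinate (.snd .w .v))
  set F1 : V × V → ℚ := fun p => (if p.1 ∉ K.V0 then (1 : ℚ) else 0) * w (K.f p.1, p.2) with hF1
  set F2 : W × V → ℚ := fun p => (if p.1 ∉ K.W0 then (1 : ℚ) else 0) * w (K.g p.1, p.2) with hF2
  have hF1m : F1 ∈ K.Con (.prod .v .v) :=
    K.mul_mem _ _ _ (K.coordinate_mem _ _ _ _ (.fst .v .v) hV) (K.pull_mem m1 hw)
  have hF2m : F2 ∈ K.Con (.prod .w .v) :=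
    K.mul_mem _ _ _ (K.coordinate_mem _ _ _ _ (.fst .w .v) hW) (K.pull_mem m2 hw)
  have t1 := K.chain_transport K.k hF1m (K.mor_coordinate (.fst .v .v))
    (K.mor_coordinate (.snd .v .v)) (fun p hp => by
      have h1 := left_ne_zero_of_mul hp
      have h2 := hw0 _ _ (right_ne_zero_of_mul hp)
      have h3 : p.1 ∉ K.V0 := by
        by_contra h
        simp [h] at h1
      exact K.chain _ _ h3 h2.2 h2.1.symm)
  have t2 := K.chain_transport' K.k hF2m (K.mor_coordinate (.fst .w .v))
    (K.mor_coordinate (.snd .w .v)) (fun p hp => by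
      have h1 := left_ne_zero_of_mul hp
      have h2 := hw0 _ _ (right_ne_zero_of_mul hp)
      have h3 : p.1 ∉ K.W0 := by
        by_contra h
        simp [h] at h1
      obtain ⟨x, hx, hxZ, hxf⟩ := K.meets _ h3
      exact ⟨x, hxZ, K.chain _ _ hx h2.2 (hxf.trans h2.1.symm)⟩)
  rw [K.push_fst hF1m, K.push_snd hF1m] at t1
  rw [K.push_fst hF2m, K.push_snd hF2m] at t2
  -- the first marginals
  have a1 : (fun x => K.integral .v (fun y => F1 (x, y))) =
      fun x => if x ∉ K.V0 then (1 : ℚ) else 0 := by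
    funext x
    have : (fun y : V => F1 (x, y)) =
        fun y => (if x ∉ K.V0 then (1 : ℚ) else 0) * w (K.f x, y) := rfl
    rw [this, K.integral_mul _ _ _ (K.slice_mem _ _ w hw _)]
    by_cases hx : x ∈ K.V0
    · simp [hx]
    · rw [hint, mul_one]
      exact ⟨x, by simp [hx]⟩
  have a2 : (fun y => K.integral .v (fun x => F2 (y, x))) =
      fun y => if y ∉ K.W0 then (1 : ℚ) else 0 := by
    funext y
    have : (fun x : V => F2 (y, x)) =
        fun x => (if y ∉ K.W0 then (1 : ℚ) else 0) * w (K.g y, x) := rfl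
    rw [this, K.integral_mul _ _ _ (K.slice_mem _ _ w hw _)]
    by_cases hy : y ∈ K.W0
    · simp [hy]
    · obtain ⟨x, hx, hxZ, hxf⟩ := K.meets _ hy
      rw [hint, mul_one]
      exact ⟨x, by simp [hx, hxf]⟩
  -- the second marginals
  have hfib : ∀ s, (fun x => if K.f x = s then (1 : ℚ) else 0) ∈ K.Con .v := by
    intro s
    have h := K.slice_mem .s .v _
      (K.coordinate_mem _ _ _ _ (.pair (.snd .s .v) (.fst .s .v)) K.f_mem) s
    exact h
  have hfibW : ∀ s, (fun y => if K.g y = s then (1 : ℚ) else 0) ∈ K.Con .w := by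
    intro s
    have h := K.slice_mem .s .w _
      (K.coordinate_mem _ _ _ _ (.pair (.snd .s .w) (.fst .s .w)) K.g_mem) s
    exact h
  have b12 : (fun x' => K.integral .v (fun x => F1 (x, x'))) =
      fun x' => K.integral .w (fun y => F2 (y, x')) := by
    funext x'
    have e1 : (fun x : V => F1 (x, x')) = fun x => w (K.f x', x') *
        (if x ∉ K.V0 ∧ K.f x = K.f x' then (1 : ℚ) else 0) := by
      funext x
      have e0 : F1 (x, x') = (if x ∉ K.V0 then (1 : ℚ) else 0) * w (K.f x, x') := rfl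
      rw [e0]
      by_cases hx : K.f x = K.f x'
      · rw [hx, mul_comm]
        congr 1
        exact if_congr (by simp) rfl rfl
      · have h0 : w (K.f x, x') = 0 := by
          by_contra hne
          exact hx (hw0 _ _ hne).1.symm
        rw [h0, mul_zero, if_neg (fun h : x ∉ K.V0 ∧ K.f x = K.f x' => hx h.2), mul_zero]
    have e2 : (fun y : W => F2 (y, x')) = fun y => w (K.f x', x') *
        (if y ∉ K.W0 ∧ K.g y = K.f x' then (1 : ℚ) else 0) := by
      funext y
      have e0 : F2 (y, x') = (if y ∉ K.W0 then (1 : ℚ) else 0) * w (K.g y, x') := rfl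
      rw [e0]
      by_cases hy : K.g y = K.f x'
      · rw [hy, mul_comm]
        congr 1
        exact if_congr (by simp) rfl rfl
      · have h0 : w (K.g y, x') = 0 := by
          by_contra hne
          exact hy (hw0 _ _ hne).1.symm
        rw [h0, mul_zero, if_neg (fun h : y ∉ K.W0 ∧ K.g y = K.f x' => hy h.2), mul_zero]
    have q1 : (fun x => if x ∉ K.V0 ∧ K.f x = K.f x' then (1 : ℚ) else 0) ∈ K.Con .v := by
      have h := K.mul_mem _ _ _ hV (hfib (K.f x'))
      convert h using 2 with x
      by_cases h1 : x ∈ K.V0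
      · rw [if_neg (fun h => h.1 h1), if_neg (not_not.2 h1), zero_mul]
      · by_cases h2 : K.f x = K.f x'
        · rw [if_pos ⟨h1, h2⟩, if_pos h1, if_pos h2, mul_one]
        · rw [if_neg (fun h => h2 h.2), if_neg h2, mul_zero]
    have q2 : (fun y => if y ∉ K.W0 ∧ K.g y = K.f x' then (1 : ℚ) else 0) ∈ K.Con .w := by
      have h := K.mul_mem _ _ _ hW (hfibW (K.f x'))
      convert h using 2 with y
      by_cases h1 : y ∈ K.W0
      · rw [if_neg (fun h => h.1 h1), if_neg (not_not.2 h1), zero_mul]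
      · by_cases h2 : K.g y = K.f x'
        · rw [if_pos ⟨h1, h2⟩, if_pos h1, if_pos h2, mul_one]
        · rw [if_neg (fun h => h2 h.2), if_neg h2, mul_zero]
    rw [e1, e2, K.integral_mul _ _ _ q1, K.integral_mul _ _ _ q2, K.euler]
  rw [a1, b12, ← t2, a2] at t1
  -- add the parts on which the canonical classes are trivial
  have d1 := K.degV_add _ _ hV K.V0_mem
  have d2 := K.degW_add _ _ hW K.W0_mem
  rw [K.degV_eq_zero _ K.V0_mem (fun x hx => by simp [hx]), add_zero] at d1
  rw [K.degW_eq_zero _ K.W0_mem (fun x hx => by simp [hx]), add_zero] at d2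
  have o1 : (fun x => (if x ∉ K.V0 then (1 : ℚ) else 0) + if x ∈ K.V0 then (1 : ℚ) else 0) =
      fun _ => 1 := by
    funext x
    by_cases hx : x ∈ K.V0 <;> simp [hx]
  have o2 : (fun x => (if x ∉ K.W0 then (1 : ℚ) else 0) + if x ∈ K.W0 then (1 : ℚ) else 0) =
      fun _ => 1 := by
    funext x
    by_cases hx : x ∈ K.W0 <;> simp [hx]
  rw [o1] at d1
  rw [o2] at d2
  rw [d1, d2, t1]

end KernelSupport

end Pool.Agent.Euler2
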